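import Mathlib
import Pool.Agent.H58Radon.Last

set_option autoImplicit false

/-!
# More balanced partitions are more likely to be Radon partitions of Gaussian points

For independent standard normal points `x 1, …, x N` of `ℝ ^ d` with `d ≥ 1` and `N ≥ d + 2`, and
partitions `(A, B)`, `(A', B')` of the index set with `|A| < |A'| ≤ |B'| < |B|`, the probability
that `(A, B)` is a Radon partition is strictly smaller than the probability that `(A', B')` is one.

Outline of the proof (files in `Pool/Agent/H58Radon`):

* `Det`, `Link`: moving one extra point `z` from one side to the other; the difference of the two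
  Radon indicators is the number of facets through which the curve `(t, z)`, `-1 < t < 1`, leaves a
  signed cone minus the number of facets through which it enters.
* `Law1` to `Law4`, `Exit`, `Cross`: the law of the coefficients `ν` of the extra point with respect
  to the `d` points of a facet jointly with the distance `c` of that facet from the origin.
* `Theta`, `Unimod`: the weight of a sign pattern of `ν` given `c` is symmetric and unimodal in the
  number of plus signs.
* `Comb`, `Strict`, `Strict2`: the resulting inequality for the sum over all facets, for each `c`.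
* `Final`, `Last`: integration, exchangeability, and induction on the size of the part.
-/

namespace Pool.Agent.Results.MP_bc6d74_co.GaussianRadonBalance

open MeasureTheory ProbabilityTheory Finset

/-- `(A, B)` is a Radon partition of the points `y`: the convex hulls of the points indexed by `A`
and of those indexed by `B` have a common point. -/
def IsRadon {N d : ℕ} (y : Fin N → Fin d → ℝ) (A B : Finset (Fin N)) : Prop :=
  (convexHull ℝ (y '' (A : Set (Fin N))) ∩ convexHull ℝ (y '' (B : Set (Fin N)))).Nonempty

/-- For independent standard normal points `x i` of `ℝ ^ d` on a probability space, the Radon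
events are measurable and more balanced partitions have strictly larger Radon probability. -/
theorem result {Ω : Type*} [MeasurableSpace Ω] (P : Measure Ω) [IsProbabilityMeasure P]
    {N d : ℕ} (hd : 1 ≤ d) (hN : d + 2 ≤ N) (x : Fin N → Ω → (Fin d → ℝ))
    (hx : ∀ i, Measurable (x i)) (hind : iIndepFun x P)
    (hlaw : ∀ i, P.map (x i) = Measure.pi fun _ : Fin d => gaussianReal 0 1)
    (A B A' B' : Finset (Fin N)) (hAB : Disjoint A B) (hAB2 : A ∪ B = univ)
    (hAB' : Disjoint A' B') (hAB2' : A' ∪ B' = univ)
    (h1 : A.card < A'.card) (h2 : A'.card ≤ B'.card) (h3 : B'.card < B.card) :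
    MeasurableSet {ω | IsRadon (fun i => x i ω) A B} ∧
    MeasurableSet {ω | IsRadon (fun i => x i ω) A' B'} ∧
    P {ω | IsRadon (fun i => x i ω) A B} < P {ω | IsRadon (fun i => x i ω) A' B'} := by
  have hcompl : ∀ {A B : Finset (Fin N)}, Disjoint A B → A ∪ B = univ → B = Aᶜ := by
    intro A B hd hu
    exact (IsCompl.of_eq (disjoint_iff.mp hd) hu).compl_eq.symm
  have hB := hcompl hAB hAB2
  have hB' := hcompl hAB' hAB2'
  subst hB hB'
  have hxm : Measurable fun ω => (fun i => x i ω : Fin N → Fin d → ℝ) := measurable_pi_iff.mpr hx
  have hset : ∀ A : Finset (Fin N), {ω | IsRadon (fun i => x i ω) A Aᶜ}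
      = (fun ω => (fun i => x i ω : Fin N → Fin d → ℝ)) ⁻¹' {y | H58Radon.RadonP A y} :=
    fun A => rfl
  have hms : ∀ A : Finset (Fin N), MeasurableSet {ω | IsRadon (fun i => x i ω) A Aᶜ} := by
    intro A
    rw [hset]
    exact hxm (H58Radon.measurableSet_radon A)
  have hmap : P.map (fun ω => (fun i => x i ω : Fin N → Fin d → ℝ)) = H58Radon.Gam N d := by
    have h := (iIndepFun_iff_map_fun_eq_pi_map (fun i => (hx i).aemeasurable)).mp hind
    rw [h]
    simp_rw [hlaw]
    rfl
  have hP : ∀ A : Finset (Fin N), P {ω | IsRadon (fun i => x i ω) A Aᶜ} = H58Radon.PR N d A := by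
    intro A
    unfold H58Radon.PR
    rw [← hmap, Measure.map_apply hxm (H58Radon.measurableSet_radon A), hset]
  refine ⟨hms A, hms A', ?_⟩
  rw [hP, hP]
  have hc : A'.card + A'ᶜ.card = N := by
    rw [card_add_card_compl, Fintype.card_fin]
  exact H58Radon.PR_lt hd hN (A'.card - (A.card + 1)) (by omega) (by omega)

end Pool.Agent.Results.MP_bc6d74_co.GaussianRadonBalance
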